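import Pool.Agent.Helper72.MK.GoalsT

set_option autoImplicit false

namespace Pool.Agent.Helper34.MK

open Pool.Agent.Helper72.MK Set Topology

section
variable {E : Type} [NormedAddCommGroup E] [InnerProductSpace ℝ E] (N : E)

/-- the segment from `x` to `N` -/
def wv (t : ℝ) (x : E) : E := (1 - t) • x + t • N

lemma inner_wv (hN : ‖N‖ = 1) (t : ℝ) (x : E) :
    inner ℝ N (wv N t x) = (1 - t) * inner ℝ N x + t := by
  rw [wv, inner_add_right, inner_smul_right, inner_smul_right, real_inner_self_eq_norm_sq, hN]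
  ring

lemma wv_ne (hN : ‖N‖ = 1) (t : ℝ) (ht0 : 0 ≤ t) (ht1 : t ≤ 1) (x : E) (hx : x ∈ Hem N) :
    wv N t x ≠ 0 := by
  intro h0
  have h1 := inner_wv N hN t x
  rw [h0, inner_zero_right] at h1
  have h2 : 0 ≤ (1 - t) * inner ℝ N x := mul_nonneg (by linarith) hx.2
  have ht : t = 0 := by linarith
  rw [ht, wv] at h0
  have h3 : x = 0 := by simpa using h0
  have h4 := hx.1
  rw [h3, norm_zero] at h4
  exact zero_ne_one h4

lemma smul_mem (hN : ‖N‖ = 1) (t : ℝ) (ht0 : 0 ≤ t) (ht1 : t ≤ 1) (x : E) (hx : x ∈ Hem N) :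
    (‖wv N t x‖⁻¹) • wv N t x ∈ Hem N := by
  have hne := wv_ne N hN t ht0 ht1 x hx
  refine ⟨?_, ?_⟩
  · rw [norm_smul, norm_inv, norm_norm]
    exact inv_mul_cancel₀ (norm_ne_zero_iff.2 hne)
  · rw [inner_smul_right, inner_wv N hN]
    have h2 : 0 ≤ (1 - t) * inner ℝ N x := mul_nonneg (by linarith) hx.2
    positivity

end

theorem hem : HEMStmt := by
  intro E _ _ _ N hN
  have hcl : IsClosed (Hem N) := by
    have : Hem N = {x : E | ‖x‖ = 1} ∩ {x : E | 0 ≤ inner ℝ N x} := rfl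
    rw [this]
    exact (isClosed_eq continuous_norm continuous_const).inter
      (isClosed_le continuous_const (by fun_prop))
  have hcp : IsCompact (Hem N) := by
    refine (isCompact_sphere (0 : E) 1).of_isClosed_subset hcl ?_
    intro x hx
    rw [mem_sphere_zero_iff_norm]
    exact hx.1
  refine ⟨isCompact_iff_compactSpace.1 hcp, ?_⟩
  rw [contractible_iff_id_nullhomotopic]
  have hNm : N ∈ Hem N := ⟨hN, by rw [real_inner_self_eq_norm_sq, hN]; norm_num⟩
  refine ⟨⟨N, hNm⟩, ⟨?_⟩⟩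
  refine
    { toFun := fun p => ⟨(‖wv N (p.1 : ℝ) (p.2 : E)‖⁻¹) • wv N (p.1 : ℝ) (p.2 : E),
        smul_mem N hN _ p.1.2.1 p.1.2.2 _ p.2.2⟩
      continuous_toFun := ?_
      map_zero_left := ?_
      map_one_left := ?_ }
  · refine Continuous.subtype_mk ?_ _
    have hc : Continuous fun p : unitInterval × Hem N => wv N (p.1 : ℝ) (p.2 : E) := by
      unfold wv
      fun_prop
    refine Continuous.smul (Continuous.inv₀ hc.norm ?_) hc
    intro p
    exact norm_ne_zero_iff.2 (wv_ne N hN _ p.1.2.1 p.1.2.2 _ p.2.2)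
  · intro x
    apply Subtype.ext
    have h1 : ‖(x : E)‖ = 1 := x.2.1
    simp [wv, h1]
  · intro x
    apply Subtype.ext
    simp [wv, hN]

end Pool.Agent.Helper34.MK
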